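import Mathlib

namespace Pool.Agent.Results.MP_33b0ad_co.Counter

open SimpleGraph

/-- The `m × n` grid graph: two squares are adjacent when they share a side. -/
def grid (m n : ℕ) : SimpleGraph (Fin m × Fin n) where
  Adj x y := (x.1 = y.1 ∧ (x.2.val + 1 = y.2.val ∨ y.2.val + 1 = x.2.val)) ∨
    (x.2 = y.2 ∧ (x.1.val + 1 = y.1.val ∨ y.1.val + 1 = x.1.val))
  symm := ⟨fun x y h => by
    rcases h with ⟨h1, h2⟩ | ⟨h1, h2⟩
    · exact Or.inl ⟨h1.symm, h2.symm⟩
    · exact Or.inr ⟨h1.symm, h2.symm⟩⟩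
  loopless := ⟨fun x h => by
    rcases h with ⟨-, h2⟩ | ⟨-, h2⟩ <;> omega⟩

/-- Interior: not in the first or last row or column. -/
def Interior {m n : ℕ} (x : Fin m × Fin n) : Prop :=
  0 < x.1.val ∧ x.1.val + 1 < m ∧ 0 < x.2.val ∧ x.2.val + 1 < n

/-- A pebbling move: two pebbles off `u`, one pebble onto a neighbour `v`. -/
def Move {m n : ℕ} (P P' : Fin m × Fin n → ℕ) : Prop :=
  ∃ u v, (grid m n).Adj u v ∧ 2 ≤ P u ∧
    P' = fun w => if w = u then P u - 2 else if w = v then P v + 1 else P w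

/-- `P` is solvable: every vertex can receive a pebble by a finite sequence of moves. -/
def Solvable {m n : ℕ} (P : Fin m × Fin n → ℕ) : Prop :=
  ∀ y, ∃ P', Relation.ReflTransGen Move P P' ∧ 1 ≤ P' y

/-- The value `v(x) = ∑ P(y) 2^(-d(x,y))`, with `d` the graph distance. -/
noncomputable def value {m n : ℕ} (P : Fin m × Fin n → ℕ) (x : Fin m × Fin n) : ℝ :=
  ∑ y, (P y : ℝ) / 2 ^ ((grid m n).dist x y)

/-- The hemmed distribution: two extra pebbles on every boundary vertex. -/
def hem {m n : ℕ} (P : Fin m × Fin n → ℕ) : Fin m × Fin n → ℕ := fun x =>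
  if 0 < x.1.val ∧ x.1.val + 1 < m ∧ 0 < x.2.val ∧ x.2.val + 1 < n then P x else P x + 2

instance (m n : ℕ) : DecidableRel (grid m n).Adj := fun x y =>
  inferInstanceAs (Decidable ((x.1 = y.1 ∧ (x.2.val + 1 = y.2.val ∨ y.2.val + 1 = x.2.val)) ∨
    (x.2 = y.2 ∧ (x.1.val + 1 = y.1.val ∨ y.1.val + 1 = x.1.val))))

abbrev W := Fin 19 × Fin 19

def P0 : W → ℕ := fun w =>
  if w = (0, 18) then 106496 else if w = (18, 18) then 106496 else if w = (0, 0) then 131072
  else if w = (18, 0) then 32768 else 0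

lemma moves (P : W → ℕ) (u v : W) (h : (grid 19 19).Adj u v) : ∀ k, 2 * k ≤ P u →
    Relation.ReflTransGen Move P
      (fun w => if w = u then P u - 2 * k else if w = v then P v + k else P w) := by
  have hne : v ≠ u := h.ne.symm
  intro k
  induction k with
  | zero =>
    intro _
    have : (fun w => if w = u then P u - 2 * 0 else if w = v then P v + 0 else P w) = P := by
      funext w
      split_ifs with h1 h2
      · rw [h1]; rfl
      · rw [h2]; rfl
      · rfl
    rw [this]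
  | succ k ih =>
    intro hk
    refine (ih (by omega)).tail ⟨u, v, h, ?_, ?_⟩
    · simp only [if_true]
      omega
    · funext w
      by_cases h1 : w = u
      · simp only [h1, if_true]
        omega
      · by_cases h2 : w = v
        · simp only [h2, hne, if_true, if_false]
          omega
        · simp only [h1, h2, if_false]

def run : List (W × W × ℕ) → (W → ℕ) → W → Bool
  | [], P, y => decide (1 ≤ P y)
  | p :: l, P, y => decide ((grid 19 19).Adj p.1 p.2.1) && decide (2 * p.2.2 ≤ P p.1) &&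
      run l (fun w => if w = p.1 then P p.1 - 2 * p.2.2 else
        if w = p.2.1 then P p.2.1 + p.2.2 else P w) y

lemma run_sound : ∀ (l : List (W × W × ℕ)) (P : W → ℕ) (y : W), run l P y = true →
    ∃ P', Relation.ReflTransGen Move P P' ∧ 1 ≤ P' y := by
  intro l
  induction l with
  | nil =>
    intro P y h
    simp only [run, decide_eq_true_eq] at h
    exact ⟨P, Relation.ReflTransGen.refl, h⟩
  | cons p l ih =>
    intro P y h
    simp only [run, Bool.and_eq_true, decide_eq_true_eq] at h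
    obtain ⟨P', hr, hy⟩ := ih _ _ h.2
    exact ⟨P', (moves P p.1 p.2.1 h.1.1 p.2.2 h.1.2).trans hr, hy⟩

def l1 (x y : W) : ℕ :=
  (x.1.val - y.1.val) + (y.1.val - x.1.val) + (x.2.val - y.2.val) + (y.2.val - x.2.val)

def nxt (u y : W) : W :=
  if u.1.val < y.1.val then (u.1 + 1, u.2) else if y.1.val < u.1.val then (u.1 - 1, u.2)
  else if u.2.val < y.2.val then (u.1, u.2 + 1) else (u.1, u.2 - 1)

def route : ℕ → W → W → ℕ → List (W × W × ℕ)
  | 0, _, _, _ => []
  | f + 1, u, y, k => if u = y then [] else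
      (u, nxt u y, k * 2 ^ l1 (nxt u y) y) :: route f (nxt u y) y k

def pre : List (W × W × ℕ) := route 20 (0, 18) (8, 13) 13 ++ route 20 (18, 18) (10, 13) 13

def plan (y : W) : List (W × W × ℕ) :=
  if l1 (0, 18) y ≤ 16 then route 20 (0, 18) y 1
  else if l1 (18, 18) y ≤ 16 then route 20 (18, 18) y 1
  else if l1 (0, 0) y ≤ 17 then route 20 (0, 0) y 1
  else if l1 (18, 0) y ≤ 15 then route 20 (18, 0) y 1
  else if y = (9, 10) then pre ++ route 20 (10, 13) (8, 13) 3 ++ route 20 (8, 13) (9, 10) 1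
  else if y = (10, 9) then pre ++ route 20 (8, 13) (10, 13) 3 ++ route 20 (10, 13) (10, 9) 1
  else if y = (9, 9) then pre ++ route 20 (10, 13) (8, 13) 3 ++ route 20 (8, 13) (8, 9) 1 ++
    route 20 (0, 0) (8, 9) 1 ++ route 20 (8, 9) (9, 9) 1
  else route 20 (0, 0) (10, 7) 1 ++ route 20 (18, 0) (10, 7) 1 ++ route 20 (10, 7) (10, 8) 1

lemma plan_ok : ∀ a b : Fin 19, run (plan (a, b)) P0 (a, b) = true := by decide +kernel

lemma l1_le {x y : W} (p : (grid 19 19).Walk x y) : l1 x y ≤ p.length := by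
  induction p with
  | nil => simp [l1]
  | cons h p ih =>
    rw [Walk.length_cons]
    unfold l1 at *
    rcases h with ⟨h1, h2⟩ | ⟨h1, h2⟩
    · have := congrArg Fin.val h1
      omega
    · have := congrArg Fin.val h1
      omega

lemma l1_dist {x y : W} (h : (grid 19 19).Reachable x y) : l1 x y ≤ (grid 19 19).dist x y := by
  obtain ⟨p, hp⟩ := h.exists_walk_length_eq_dist
  rw [← hp]
  exact l1_le p

lemma nxt_ok : ∀ a b : Fin 19, (a, b) = ((9, 9) : W) ∨
    ((grid 19 19).Adj (nxt (a, b) (9, 9)) (a, b) ∧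
      l1 (9, 9) (nxt (a, b) (9, 9)) < l1 (9, 9) (a, b)) := by decide +kernel

lemma reach : ∀ k (y : W), l1 (9, 9) y < k → (grid 19 19).Reachable (9, 9) y := by
  intro k
  induction k with
  | zero => intro y h; omega
  | succ k ih =>
    rintro ⟨a, b⟩ h
    rcases nxt_ok a b with h1 | ⟨h1, h2⟩
    · rw [h1]
    · exact (ih _ (by omega)).trans h1.reachable

lemma l1_bd : ∀ a b : Fin 19, l1 (9, 9) (a, b) ≤ 18 := by decide +kernel

lemma tot : ∑ a : Fin 19, ∑ b : Fin 19, hem P0 (a, b) * 2 ^ (18 - l1 (9, 9) (a, b)) < 393216 := by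
  decide +kernel

lemma hem_val : value (hem P0) (9, 9) < 3 / 2 := by
  have h1 : value (hem P0) (9, 9) ≤
      ∑ y : W, ((hem P0 y * 2 ^ (18 - l1 (9, 9) y) : ℕ) : ℝ) / 2 ^ 18 := by
    unfold value
    refine Finset.sum_le_sum fun y _ => ?_
    have hd := l1_dist (reach _ y (Nat.lt_succ_self _))
    have hb := l1_bd y.1 y.2
    have e : (2 : ℝ) ^ 18 = 2 ^ (18 - l1 (9, 9) y) * 2 ^ (l1 (9, 9) y) := by
      rw [← pow_add, Nat.sub_add_cancel hb]
    have e2 : ((hem P0 y * 2 ^ (18 - l1 (9, 9) y) : ℕ) : ℝ) / 2 ^ 18 =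
        (hem P0 y : ℝ) / 2 ^ (l1 (9, 9) y) := by
      rw [e]
      push_cast
      field_simp
    rw [e2]
    apply div_le_div_of_nonneg_left (by positivity) (by positivity)
    exact pow_le_pow_right₀ (by norm_num) hd
  rw [← Finset.sum_div, ← Nat.cast_sum, Fintype.sum_prod_type] at h1
  have h2 : ((∑ a : Fin 19, ∑ b : Fin 19,
      hem P0 (a, b) * 2 ^ (18 - l1 (9, 9) (a, b)) : ℕ) : ℝ) < 393216 := by
    exact_mod_cast tot
  refine lt_of_le_of_lt h1 ?_
  rw [div_lt_iff₀ (by positivity)]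
  refine lt_of_lt_of_le h2 (by norm_num)

theorem result :
    ∃ (m n : ℕ) (P : Fin m × Fin n → ℕ) (X : Fin m × Fin n),
      Solvable P ∧ Interior X ∧ value P X < 3 / 2 ∧ value (hem P) X < 3 / 2 := by
  refine ⟨19, 19, P0, (9, 9), fun y => run_sound _ _ _ (plan_ok y.1 y.2), by simp [Interior],
    lt_of_le_of_lt ?_ hem_val, hem_val⟩
  unfold value
  refine Finset.sum_le_sum fun y _ => ?_
  apply div_le_div_of_nonneg_right _ (by positivity)
  have : P0 y ≤ hem P0 y := by
    unfold hem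
    split_ifs <;> omega
  exact_mod_cast this

end Pool.Agent.Results.MP_33b0ad_co.Counter
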